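import Pool.Agent.Helper39.DS.Basic

/-!
# Spheres and complements of spheres, from the vanishing of `Hc (ℝ^k)` below degree `k`
-/

namespace Pool.Agent.Helper39.DS

open Set Filter Topology Pool.Agent.Helper36.AS Pool.Agent.Helper82.DK2

variable {R : Type*} [CommRing R]

theorem sph_compact (k : ℕ) : CompactSpace (Sph k) :=
  isCompact_iff_compactSpace.1 (isCompact_sphere _ _)

instance (k : ℕ) : CompactSpace (Sph k) := sph_compact k

instance finrank_fact (k : ℕ) :
    Fact (Module.finrank ℝ (EuclideanSpace ℝ (Fin (k + 1))) = k + 1) := ⟨by simp⟩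

/-- A point of the sphere. -/
noncomputable def pole (k : ℕ) : Sph k := ⟨EuclideanSpace.single 0 1, by simp⟩

theorem subsingleton_sphere_sub_point {k j : ℕ}
    (h : Subsingleton (Hc R (univ : Set (Fin k → ℝ)) j)) :
    Subsingleton (Hc R ((univ : Set (Sph k)) \ {pole k}) j) := by
  have h1 : Subsingleton (Hc R (univ : Set (EuclideanSpace ℝ (Fin k))) j) :=
    subsingleton_homeo (EuclideanSpace.equiv (Fin k) ℝ).symm.toHomeomorph h
  set e := stereographic' k (pole k) with he
  have hs : e.source = (univ : Set (Sph k)) \ {pole k} := by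
    rw [he, stereographic'_source]; ext x; simp
  have ht : e.target = univ := stereographic'_target _
  rw [← hs]
  rw [← ht] at h1
  exact subsingleton_of_inv (φ := e.symm) (ψ := e) e.symm.continuousOn e.continuousOn
    e.symm.mapsTo e.mapsTo e.symm.leftInvOn e.leftInvOn h1

theorem subsingleton_sphere {k j : ℕ} (h : Subsingleton (Hc R (univ : Set (Fin k → ℝ)) (j + 1))) :
    Subsingleton (Hc R (univ : Set (Sph k)) (j + 1)) := by
  refine subsingleton_middle (F := {pole k}) isClosed_singleton good_univ
    (subsingleton_sphere_sub_point h) ?_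
  rw [univ_inter]
  exact subsingleton_singleton _ _

/-- The complement of an embedded `m`-sphere in the `k`-sphere. -/
theorem subsingleton_compl {m k j : ℕ} {f : Sph m → Sph k} (hf : Continuous f)
    (hi : Function.Injective f)
    (h1 : Subsingleton (Hc R (univ : Set (Fin k → ℝ)) (j + 2)))
    (h2 : Subsingleton (Hc R (univ : Set (Fin m → ℝ)) (j + 1))) :
    Subsingleton (Hc R (range f)ᶜ (j + 2)) := by
  have h3 : Subsingleton (Hc R (univ : Set (Sph k)) (j + 2)) := subsingleton_sphere h1
  have h4 : Subsingleton (Hc R (univ : Set (Sph m)) (j + 1)) := subsingleton_sphere h2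
  have h5 : Subsingleton (Hc R (range f) (j + 1)) := subsingleton_range hf hi h4
  have h6 : Subsingleton (Hc R ((univ : Set (Sph k)) \ range f) (j + 2)) :=
    subsingleton_diff (isCompact_range hf).isClosed good_univ h3 (by rwa [univ_inter])
  rwa [compl_eq_univ_diff]

end Pool.Agent.Helper39.DS
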