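import Pool.Agent.Helper36.AS.Ball
import Pool.Agent.Helper31.DS.O3
import Pool.Agent.Helper82.DK2.Split
import Pool.Agent.Helper39.DS.Sphere

/-!
# The ambient space `ℝ ^ 7 × S¹`
-/

namespace Pool.Agent.Helper39.DS

open Set Filter Topology Pool.Agent.Helper36.AS Pool.Agent.Helper82.DK2 Pool.Agent.Helper31.DS

section Knot

/-- The rational cohomology with compact supports in degree `3` of the complement of a `5`-sphere
in the `7`-sphere vanishes. -/
theorem subsingleton_knot_compl {R : Type*} [CommRing R] {f : Sph 5 → Sph 7} (hf : Continuous f)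
    (hi : Function.Injective f) : Subsingleton (Hc R (range f)ᶜ 3) :=
  subsingleton_compl (m := 5) (k := 7) (j := 1) hf hi (Hc_ball_ne (by decide))
    (Hc_ball_ne (by decide))

/-- The same in degree `2`. -/
theorem subsingleton_knot_compl_two {R : Type*} [CommRing R] {f : Sph 5 → Sph 7}
    (hf : Continuous f) (hi : Function.Injective f) : Subsingleton (Hc R (range f)ᶜ 2) :=
  subsingleton_compl (m := 5) (k := 7) (j := 0) hf hi (Hc_ball_ne (by decide))
    (Hc_ball_ne (by decide))

end Knot

section LineProd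
variable {Y R : Type*} [MetricSpace Y] [CommRing R] {B : Set Y}

theorem lineC_cls_zero (hB : LCpt B) {n : ℕ} {f : List Y → R}
    (hf : f ∈ cocycles R IsCompact B n) (h1 : cls f hf = 0) :
    (cls _ (lineC_mem hf) : Hc R (univ ×ˢ B : Set (ℝ × Y)) (n + 1)) = 0 := by
  rw [← line_delta hB hf]
  have h2 : (cls _ (mid_mem hf) : HS R IsCompact
      ((Iic (0 : ℝ) ×ˢ B) ∩ (Ici (0 : ℝ) ×ˢ B)) n) = 0 := by
    rw [cls_eq_zero_iff]
    have hm : SMap IsCompact IsCompact
        ((Iic (0 : ℝ) ×ˢ B) ∩ (Ici (0 : ℝ) ×ˢ B)) B (Prod.snd : ℝ × Y → Y) :=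
      SMap.of_homeo (ψ := fun y => ((0 : ℝ), y)) continuous_snd.continuousOn
        (fun _ h => h.1.2) (by fun_prop)
        (fun y hy => ⟨⟨le_refl (0 : ℝ), hy⟩, ⟨le_refl (0 : ℝ), hy⟩⟩)
        fun p hp => Prod.ext (le_antisymm hp.2.1 hp.1.1) rfl
    exact hm.pull_mem_coboundaries (cls_eq_zero_iff.1 h1)
  rw [h2, map_zero]

theorem subsingleton_line (hB : LCpt B) {n : ℕ} (h : Subsingleton (Hc R B n)) :
    Subsingleton (Hc R (univ ×ˢ B : Set (ℝ × Y)) (n + 1)) := by
  have key : ∀ α : Hc R (univ ×ˢ B : Set (ℝ × Y)) (n + 1), α = 0 := by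
    intro α
    obtain ⟨f, hf, rfl⟩ := line_surj hB α
    exact lineC_cls_zero hB hf (Subsingleton.elim _ _)
  exact ⟨fun α β => by rw [key α, key β]⟩

end LineProd

section Circle
variable {R : Type*} [CommRing R]

theorem subsingleton_pi_circle (m : ℕ) : ∀ j < m,
    Subsingleton (Hc R (univ : Set ((Fin m → ℝ) × Circle)) j) := by
  induction m with
  | zero => intro j hj; exact absurd hj (Nat.not_lt_zero _)
  | succ m ih =>
    intro j hj
    have h1 : Subsingleton (Hc R (univ ×ˢ (univ : Set ((Fin m → ℝ) × Circle)) :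
        Set (ℝ × ((Fin m → ℝ) × Circle))) j) := by
      cases j with
      | zero => exact line_zero LCpt.univ
      | succ j => exact subsingleton_line LCpt.univ (ih j (by omega))
    rw [univ_prod_univ] at h1
    refine subsingleton_homeo (X := ℝ × ((Fin m → ℝ) × Circle)) ?_ h1
    let e : ℝ × (Fin m → ℝ) ≃ₜ (Fin (m + 1) → ℝ) :=
      { toFun := fun p => Fin.cons p.1 p.2
        invFun := fun x => (x 0, Fin.tail x)
        left_inv := fun p => by simp
        right_inv := fun x => Fin.cons_self_tail x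
        continuous_toFun := split_right m
        continuous_invFun := split_left m }
    exact (Homeomorph.prodAssoc ℝ (Fin m → ℝ) Circle).symm.trans
      (e.prodCongr (Homeomorph.refl Circle))

/-- The cohomology with compact supports of `ℝ ^ 7 × S¹` vanishes in degree `3`. -/
theorem subsingleton_EE : Subsingleton (Hc R (univ : Set (EE 5)) 3) := by
  have h := subsingleton_pi_circle (R := R) 7 3 (by decide)
  exact subsingleton_homeo
    ((EuclideanSpace.equiv (Fin 7) ℝ).symm.toHomeomorph.prodCongr (Homeomorph.refl Circle)) h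

theorem EE_zero (α : Hc (ZMod 2) (univ : Set (EE 5)) 3) : α = 0 :=
  haveI := subsingleton_EE (R := ZMod 2)
  Subsingleton.elim _ _

end Circle

section Embedding

/-- Polar coordinates. -/
theorem isOpenEmbedding_polar :
    IsOpenEmbedding fun p : ℝ × Circle => (Real.exp p.1 : ℂ) * (p.2 : ℂ) := by
  have hc : Continuous fun p : ℝ × Circle => (Real.exp p.1 : ℂ) * (p.2 : ℂ) := by fun_prop
  have hn : ∀ p : ℝ × Circle, ‖(Real.exp p.1 : ℂ) * (p.2 : ℂ)‖ = Real.exp p.1 := fun p => by
    rw [norm_mul, Circle.norm_coe, mul_one, Complex.norm_real, Real.norm_eq_abs,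
      abs_of_pos (Real.exp_pos _)]
  have hne : ∀ p : ℝ × Circle, (Real.exp p.1 : ℂ) * (p.2 : ℂ) ≠ 0 := fun p h => by
    have := hn p
    rw [h, norm_zero] at this
    exact (Real.exp_pos _).ne this
  -- the homeomorphism onto the complement of the origin
  let e : ℝ × Circle ≃ₜ {z : ℂ // z ≠ 0} :=
    { toFun := fun p => ⟨_, hne p⟩
      invFun := fun z => (Real.log ‖z.1‖, ⟨z.1 / (‖z.1‖ : ℂ), by
        rw [Submonoid.unitSphere]
        simp [z.2]⟩)
      left_inv := fun p => by
        refine Prod.ext ?_ (Subtype.ext ?_)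
        · simp only [hn, Real.log_exp]
        · simp only [hn]
          rw [mul_div_cancel_left₀]
          exact_mod_cast (Real.exp_pos _).ne'
      right_inv := fun z => by
        apply Subtype.ext
        have hz : 0 < ‖z.1‖ := norm_pos_iff.2 z.2
        simp only [Real.exp_log hz]
        rw [mul_div_cancel₀]
        exact_mod_cast hz.ne'
      continuous_toFun := hc.subtype_mk _
      continuous_invFun := by
        refine Continuous.prodMk ?_ (Continuous.subtype_mk ?_ _)
        · exact Continuous.log (by fun_prop) fun z => (norm_pos_iff.2 z.2).ne'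
        · refine Continuous.div (by fun_prop) (by fun_prop) fun z => ?_
          exact_mod_cast (norm_pos_iff.2 z.2).ne' }
  have he : (fun p : ℝ × Circle => (Real.exp p.1 : ℂ) * (p.2 : ℂ)) = Subtype.val ∘ e := rfl
  rw [he]
  exact (isOpen_compl_singleton.isOpenEmbedding_subtypeVal (X := ℂ) (s := {0}ᶜ)).comp
    e.isOpenEmbedding

/-- `ℝ ^ 7 × S¹` embeds in `ℝ ^ 8` as an open set. -/
theorem exists_isOpenEmbedding : ∃ ι : EE 5 → ℝ × (Fin 7 → ℝ), IsOpenEmbedding ι := by
  have f1 : Module.finrank ℝ (EuclideanSpace ℝ (Fin 7)) = Module.finrank ℝ ((Fin 6 → ℝ) × ℝ) := by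
    rw [Module.finrank_prod, finrank_euclideanSpace, Module.finrank_pi, Module.finrank_self]
    simp
  have f2 : Module.finrank ℝ ((Fin 6 → ℝ) × ℂ) = Module.finrank ℝ (ℝ × (Fin 7 → ℝ)) := by
    rw [Module.finrank_prod, Module.finrank_prod, Module.finrank_pi, Module.finrank_pi,
      Module.finrank_self, Complex.finrank_real_complex]
    simp
  let L1 : EuclideanSpace ℝ (Fin 7) ≃L[ℝ] ((Fin 6 → ℝ) × ℝ) :=
    ContinuousLinearEquiv.ofFinrankEq f1
  let L2 : ((Fin 6 → ℝ) × ℂ) ≃L[ℝ] (ℝ × (Fin 7 → ℝ)) :=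
    ContinuousLinearEquiv.ofFinrankEq f2
  have h1 : IsOpenEmbedding (L1.toHomeomorph.prodCongr (Homeomorph.refl Circle)) :=
    Homeomorph.isOpenEmbedding _
  have h2 : IsOpenEmbedding (Homeomorph.prodAssoc (Fin 6 → ℝ) ℝ Circle) :=
    Homeomorph.isOpenEmbedding _
  have h3 : IsOpenEmbedding (Prod.map (id : (Fin 6 → ℝ) → (Fin 6 → ℝ))
      (fun p : ℝ × Circle => (Real.exp p.1 : ℂ) * (p.2 : ℂ))) :=
    IsOpenEmbedding.id.prodMap isOpenEmbedding_polar
  exact ⟨_, L2.toHomeomorph.isOpenEmbedding.comp (h3.comp (h2.comp h1))⟩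

end Embedding

section Std
variable {k : Type*} [Field k]

theorem prodc_LZat {X : Type*} [TopologicalSpace X] {T : Set X} {x : X}
    (L : List (X → ℝ)) (hc : ∀ c ∈ L, ContinuousWithinAt c T x) (hx : ∃ c ∈ L, c x ≠ 0) :
    LZat T (L.length + 1) (prodc (L.map fun c => d (ind fun y => 0 < c y)) : List X → k) x := by
  induction L with
  | nil =>
    obtain ⟨c, hc', -⟩ := hx
    exact absurd hc' List.not_mem_nil
  | cons c L ih =>
    rw [List.map_cons, prodc, List.length_cons]
    have e : 1 + L.length + 1 = L.length + 1 + 1 := by omega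
    by_cases h : c x ≠ 0
    · have := (LZat_d_ind (R := k) (T := T) (c := c) (hc c (by simp)) h).cup_left (p := 1)
        (q := L.length) (prodc (L.map fun c => d (ind fun y => 0 < c y)))
      rwa [e] at this
    · obtain ⟨c', hc', hx'⟩ := hx
      have hL : c' ∈ L := by
        rcases List.mem_cons.1 hc' with rfl | h'
        · exact absurd hx' h
        · exact h'
      have := (ih (fun c hc' => hc c (by simp [hc'])) ⟨c', hL, hx'⟩).cup_right (p := 1)
        (q := L.length) (d (ind fun y => 0 < c y) : List X → k)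
      rwa [e] at this

theorem stm_LZat {m : ℕ} {x : Fin m → ℝ} (hx : x ≠ 0) : LZat univ (m + 1) (stm k m) x := by
  have h := prodc_LZat (k := k) (T := univ) (x := x)
    (List.ofFn fun i : Fin m => fun x : Fin m → ℝ => x i)
    (fun c hc => by
      obtain ⟨i, rfl⟩ := (List.mem_ofFn' _ _).1 hc
      exact (continuous_apply i).continuousWithinAt)
    (by
      obtain ⟨i, hi⟩ := Function.ne_iff.1 hx
      exact ⟨fun x => x i, (List.mem_ofFn' _ _).2 ⟨i, rfl⟩, hi⟩)
  rw [List.length_ofFn, List.map_ofFn] at h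
  exact h

/-- The standard generator on `ℝ ^ 7`. -/
theorem isStd_stm (m : ℕ) : IsStd m (stm k (m + 1)) where
  coc := stm_mem (m + 1)
  ncob := stm_notMem (m + 1)
  gen := fun c hc => by
    obtain ⟨a, ha⟩ := ball_surj (cls c hc)
    refine ⟨a, ?_⟩
    rwa [cls_smul, cls_eq_iff] at ha
  supp := fun x hx => stm_LZat hx

theorem lineC_stm_notMem (m : ℕ) : lineC (stm k m) ∉
    coboundaries k IsCompact (univ : Set (ℝ × (Fin m → ℝ))) (m + 1) := fun h => by
  rw [← univ_prod_univ] at h
  have h1 := line_inj LCpt.univ (stm_mem m) (cls_eq_zero_iff.2 h)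
  exact stm_notMem m (cls_eq_zero_iff.1 h1)

/-- The standard generator on `ℝ × ℝ ^ 7`. -/
theorem isStd_lineC (m : ℕ) : IsStd m (lineC (stm k m)) where
  coc := by
    have := lineC_mem (stm_mem (R := k) m)
    rwa [univ_prod_univ] at this
  ncob := lineC_stm_notMem m
  gen := fun c hc => by
    rw [← univ_prod_univ] at hc
    obtain ⟨f, hf, hfc⟩ := line_surj LCpt.univ (cls c hc)
    obtain ⟨a, ha⟩ := ball_surj (cls f hf)
    refine ⟨a, ?_⟩
    have h1 : f - a • stm k m ∈ coboundaries k IsCompact (univ : Set (Fin m → ℝ)) m := by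
      rw [cls_smul, cls_eq_iff] at ha; exact ha
    have hfc' : f - a • stm k m ∈ cocycles k IsCompact (univ : Set (Fin m → ℝ)) m :=
      sub_mem hf (Submodule.smul_mem _ a (stm_mem m))
    have h2 := cls_eq_zero_iff.1 (lineC_cls_zero LCpt.univ hfc' (cls_eq_zero_iff.2 h1))
    have h3 : lineC (f - a • stm k m) = lineC f - a • lineC (stm k m) := by
      unfold lineC
      rw [pull_sub, cup_sub_right]
      congr 1
      exact cup_smul_right _ _ _ _
    rw [h3] at h2
    have h4 := (cls_eq_iff).1 hfc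
    rw [univ_prod_univ] at h2 h4
    have h5 := sub_mem h2 h4
    have h6 : lineC f - a • lineC (stm k m) - (lineC f - c) = c - a • lineC (stm k m) := by abel
    rwa [h6] at h5
  supp := fun x hx => by
    have h := lineC_LZat (R := k) (B := (univ : Set (Fin m → ℝ))) (n := m) (f := stm k m)
      (p := x) (mem_univ _) (by
        by_cases h1 : x.1 = 0
        · exact Or.inr (stm_LZat fun h2 => hx (Prod.ext h1 h2))
        · exact Or.inl h1)
    rwa [univ_prod_univ] at h

theorem hline_stm (m : ℕ) : cup 1 (d (step0 (V := Fin m → ℝ))) (pull Prod.snd (stm k m)) ∉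
    coboundaries k IsCompact (univ : Set (ℝ × (Fin m → ℝ))) (m + 1) := by
  intro h
  apply lineC_stm_notMem (k := k) m
  have h1 : lineC (stm k m) - cup 1 (d (step0 (V := Fin m → ℝ))) (pull Prod.snd (stm k m)) ∈
      coboundaries k IsCompact (univ : Set (ℝ × (Fin m → ℝ))) (m + 1) := by
    refine LZ.mem_coboundaries fun x _ => LZat.of_eq_zero x fun l hl _ => ?_
    match l, hl with
    | a :: b :: l, _ =>
      rw [Pi.sub_apply, sub_eq_zero]
      simp only [lineC, cup, List.take_succ_cons, List.take_zero, d_cons, d_nil]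
      simp [ind, step0]
  have := add_mem h1 h
  rwa [sub_add_cancel] at this

end Std

end Pool.Agent.Helper39.DS
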