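import Pool.Agent.Helper36.AS.Pair
import Pool.Agent.Helper82.DK2.Defs

/-!
# Points, homeomorphisms, compact spaces
-/

namespace Pool.Agent.Helper39.DS

open Set Filter Topology Pool.Agent.Helper36.AS

variable {X Y R : Type*} [CommRing R]

section Top
variable [TopologicalSpace X] [TopologicalSpace Y]

/-- The positive degree cohomology of a point vanishes. -/
theorem subsingleton_singleton (a : X) (n : ℕ) :
    Subsingleton (Hc R ({a} : Set X) (n + 1)) := by
  refine subsingleton_of_forall_eq 0 fun α => ?_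
  obtain ⟨f, hf, rfl⟩ := cls_surj α
  rw [cls_eq_zero_iff]
  refine ⟨fun m => f (a :: m), nofun, ⟨{a}, Subset.rfl, isCompact_singleton,
    fun x hx hx' => absurd hx hx'⟩, ?_⟩
  intro x hx
  obtain rfl : x = a := hx
  obtain ⟨U, hU, h⟩ := hf.2 x rfl
  refine ⟨U, hU, fun l hl hl' => ?_⟩
  have h1 := h (x :: l) (by simp [hl]) (by
    intro y hy
    rcases List.mem_cons.1 hy with rfl | hy
    · exact ⟨mem_of_mem_nhds hU, rfl⟩
    · exact hl' y hy)
  rw [d_cons] at h1
  exact h1

/-- Mutually inverse homeomorphisms give compactly supported maps. -/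
theorem smap_of_inv {A : Set X} {B : Set Y} {φ : X → Y} {ψ : Y → X} (hφ : ContinuousOn φ A)
    (hψ : ContinuousOn ψ B) (h1 : MapsTo φ A B) (h2 : MapsTo ψ B A) (h3 : LeftInvOn ψ φ A)
    (h4 : LeftInvOn φ ψ B) : SMap IsCompact IsCompact A B φ := by
  refine ⟨hφ, h1, fun K hK hc => ?_⟩
  have : A ∩ φ ⁻¹' K = ψ '' K := by
    ext x
    constructor
    · rintro ⟨hx, hx'⟩
      exact ⟨φ x, hx', h3 hx⟩
    · rintro ⟨y, hy, rfl⟩
      exact ⟨h2 (hK hy), by rw [mem_preimage, h4 (hK hy)]; exact hy⟩
  rw [this]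
  exact hc.image_of_continuousOn (hψ.mono hK)

theorem map_injective_of_inv {A : Set X} {B : Set Y} {φ : X → Y} {ψ : Y → X}
    (hφ : ContinuousOn φ A) (hψ : ContinuousOn ψ B) (h1 : MapsTo φ A B) (h2 : MapsTo ψ B A)
    (h3 : LeftInvOn ψ φ A) (h4 : LeftInvOn φ ψ B) (n : ℕ) :
    Function.Injective ((smap_of_inv hφ hψ h1 h2 h3 h4).map R n) := by
  rw [injective_iff_map_eq_zero]
  intro α hα
  have hs := smap_of_inv hφ hψ h1 h2 h3 h4
  have hs' := smap_of_inv hψ hφ h2 h1 h4 h3
  have h5 := SMap.map_comp (R := R) hs hs' n α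
  rw [hα, map_zero] at h5
  rw [SMap.map_congr (hs.comp hs') (SMap.refl IsCompact B) (fun y hy => h4 hy) n α,
    SMap.map_refl] at h5
  exact h5

theorem subsingleton_of_inv {A : Set X} {B : Set Y} {φ : X → Y} {ψ : Y → X}
    (hφ : ContinuousOn φ A) (hψ : ContinuousOn ψ B) (h1 : MapsTo φ A B) (h2 : MapsTo ψ B A)
    (h3 : LeftInvOn ψ φ A) (h4 : LeftInvOn φ ψ B) {n : ℕ} (h : Subsingleton (Hc R A n)) :
    Subsingleton (Hc R B n) :=
  (map_injective_of_inv (R := R) hφ hψ h1 h2 h3 h4 n).subsingleton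

theorem subsingleton_homeo (e : X ≃ₜ Y) {n : ℕ} (h : Subsingleton (Hc R (univ : Set X) n)) :
    Subsingleton (Hc R (univ : Set Y) n) :=
  subsingleton_of_inv e.continuous.continuousOn e.symm.continuous.continuousOn
    (fun _ _ => mem_univ _) (fun _ _ => mem_univ _) (fun x _ => e.symm_apply_apply x)
    (fun x _ => e.apply_symm_apply x) h

theorem subsingleton_range [T2Space Y] [CompactSpace X] {f : X → Y} (hf : Continuous f)
    (hi : Function.Injective f) {n : ℕ} (h : Subsingleton (Hc R (univ : Set X) n)) :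
    Subsingleton (Hc R (range f) n) := by
  rcases isEmpty_or_nonempty X with hX | hX
  · have : range f = ∅ := range_eq_empty_iff.2 hX
    rw [this]
    refine subsingleton_of_forall_eq 0 fun α => ?_
    obtain ⟨f, hf, rfl⟩ := cls_surj α
    rw [cls_eq_zero_iff]
    exact LZ.mem_coboundaries fun x hx => absurd hx (notMem_empty x)
  have he : IsClosedEmbedding f := hf.isClosedEmbedding hi
  refine subsingleton_of_inv (φ := f) (ψ := Function.invFun f) hf.continuousOn ?_
    (fun x _ => mem_range_self x) (fun _ _ => mem_univ _)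
    (fun x _ => Function.leftInverse_invFun hi x) ?_ h
  · rw [continuousOn_iff_continuous_restrict, he.isEmbedding.isInducing.continuous_iff]
    refine continuous_subtype_val.congr fun y => ?_
    exact (Function.invFun_eq y.2).symm
  · exact fun y hy => Function.invFun_eq hy

theorem good_compact (K : Set X) (hK : IsCompact K) : Good IsCompact K :=
  fun _ hL _ _ => ⟨univ, isOpen_univ, subset_univ _, K, Subset.rfl, hK, by simp,
    inter_subset_right⟩

theorem good_univ [CompactSpace X] : Good IsCompact (univ : Set X) := good_compact _ isCompact_univ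

end Top

section Metric
variable [MetricSpace X]

/-- Exactness at `Hc T`. -/
theorem subsingleton_middle {T F : Set X} (hF : IsClosed F) (hT : Good IsCompact T) {n : ℕ}
    (h1 : Subsingleton (Hc R (T \ F) n)) (h2 : Subsingleton (Hc R (T ∩ F) n)) :
    Subsingleton (Hc R T n) := by
  refine subsingleton_of_forall_eq 0 fun α => ?_
  obtain ⟨β, rfl⟩ := (incl_eq_zero_iff_ext hF hT α).1 (Subsingleton.elim _ _)
  rw [Subsingleton.elim β 0, map_zero]

/-- Exactness at `Hc (T \ F)`. -/
theorem subsingleton_diff {T F : Set X} (hF : IsClosed F) (hT : Good IsCompact T) {n : ℕ}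
    (h1 : Subsingleton (Hc R T (n + 1))) (h2 : Subsingleton (Hc R (T ∩ F) n)) :
    Subsingleton (Hc R (T \ F) (n + 1)) := by
  refine subsingleton_of_forall_eq 0 fun α => ?_
  obtain ⟨γ, hγ⟩ := (ofOff_eq_zero_iff hF hT ((exc R hF (n + 1)).symm α)).1 (Subsingleton.elim _ _)
  rw [Subsingleton.elim γ 0, map_zero] at hγ
  have := congrArg (exc R hF (n + 1)) hγ
  rw [LinearEquiv.apply_symm_apply, map_zero] at this
  exact this.symm

end Metric

end Pool.Agent.Helper39.DS
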