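import Pool.Agent.Helper39.DS.Push

/-!
# The local class of an open subset of `ℝ^m` is not zero
-/

namespace Pool.Agent.Helper39.DS

open Set Filter Topology Pool.Agent.Helper36.AS

variable {X Y R : Type*} [CommRing R]

/-- `s` is a cocycle with support in the origin whose class is a basis of `Hc^m (ℝ^m)`. -/
structure Gen (m : ℕ) (s : List (Fin m → ℝ) → R) : Prop where
  coc : s ∈ cocycles R IsCompact univ m
  gen : ∀ f ∈ cocycles R IsCompact univ m, ∃ c : R, f - c • s ∈ coboundaries R IsCompact univ m
  free : ∀ c : R, c • s ∈ coboundaries R IsCompact univ m → c = 0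
  pt : ∀ x ≠ 0, LZat univ (m + 1) s x

section
variable {m : ℕ} {s : List (Fin m → ℝ) → R}

theorem smap_homeo {A B : Type*} [TopologicalSpace A] [TopologicalSpace B] (e : A ≃ₜ B) :
    SMap IsCompact IsCompact (univ : Set A) (univ : Set B) e :=
  smap_of_inv e.continuous.continuousOn e.symm.continuous.continuousOn
    (fun _ _ => mem_univ _) (fun _ _ => mem_univ _) (fun x _ => e.symm_apply_apply x)
    (fun x _ => e.apply_symm_apply x)

theorem pull_pull (A B : Type*) (φ : A → B) (ψ : B → A) (h : ∀ x, ψ (φ x) = x)
    (f : List A → R) : pull φ (pull ψ f) = f := by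
  funext l
  simp [pull, List.map_map, Function.comp_def, h]

theorem Gen.translate (hs : Gen m s) (y0 : Fin m → ℝ) :
    pull (fun y => y - y0) s ∈ cocycles R IsCompact univ m ∧
    (∀ f ∈ cocycles R IsCompact univ m,
      ∃ c : R, f - c • pull (fun y => y - y0) s ∈ coboundaries R IsCompact univ m) ∧
    (∀ c : R, c • pull (fun y => y - y0) s ∈ coboundaries R IsCompact univ m → c = 0) ∧
    (∀ x ≠ y0, LZat univ (m + 1) (pull (fun y => y - y0) s) x) := by
  have e : (fun y : Fin m → ℝ => y - y0) = Homeomorph.subRight y0 := rfl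
  have e1 := smap_homeo (Homeomorph.subRight y0)
  have e2 := smap_homeo (Homeomorph.subRight y0).symm
  refine ⟨e1.pull_mem_cocycles hs.coc, fun f hf => ?_, fun c hc => ?_, fun x hx => ?_⟩
  · obtain ⟨c, hc⟩ := hs.gen _ (e2.pull_mem_cocycles hf)
    refine ⟨c, ?_⟩
    have h1 := e1.pull_mem_coboundaries hc
    have h2 : pull (Homeomorph.subRight y0) (pull (Homeomorph.subRight y0).symm f - c • s) =
        f - c • pull (Homeomorph.subRight y0) s := by
      rw [pull_sub, pull_pull _ _ _ _ (fun x => (Homeomorph.subRight y0).symm_apply_apply x)]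
      rfl
    rw [h2] at h1
    exact h1
  · have h1 := e2.pull_mem_coboundaries hc
    have h2 : pull (Homeomorph.subRight y0).symm (c • pull (fun y => y - y0) s) = c • s := by
      have : pull (Homeomorph.subRight y0).symm (pull (Homeomorph.subRight y0) s) = s :=
        pull_pull _ _ _ _ (fun x => (Homeomorph.subRight y0).apply_symm_apply x) s
      change c • pull (Homeomorph.subRight y0).symm (pull (Homeomorph.subRight y0) s) = c • s
      rw [this]
    rw [h2] at h1
    exact hs.free c h1
  · have h1 := hs.pt (x - y0) (sub_ne_zero.2 hx)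
    exact LZat.pull (φ := fun y => y - y0) (B := univ) (A := univ) h1
      (Homeomorph.subRight y0).continuous.continuousAt.continuousWithinAt (fun _ _ => mem_univ _)

/-- **Open embeddings of `ℝ^m` in itself are injective on compactly supported cohomology of
degree `m`.** -/
theorem Gen.injective (hs : Gen m s) {φ ψ : (Fin m → ℝ) → (Fin m → ℝ)} (h : OE φ ψ)
    {f : List (Fin m → ℝ) → R} (hf : f ∈ cocycles R IsCompact univ m) {K : Set (Fin m → ℝ)}
    (hK : IsCompact K) (hKφ : K ⊆ range φ) (hfK : SuppIn univ (m + 1) f K)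
    (hc : f ∈ coboundaries R IsCompact univ m) :
    pull φ f ∈ coboundaries R IsCompact univ m := by
  obtain ⟨c1, c2, c3, c4⟩ := hs.translate (φ 0)
  set s' := pull (fun y => y - φ 0) s with hs'
  obtain ⟨t, ht, ⟨L, hL, hLφ, htL⟩, ht'⟩ := h.exists_push_cocycle hs.coc
  have hsupp : SuppIn univ (m + 1) s' {φ 0} := fun x _ hx => c4 x hx
  have h1 : pull φ s' ∈ cocycles R IsCompact univ m :=
    ⟨h.hasSupp_pull isCompact_singleton (by rintro _ rfl; exact mem_range_self _) hsupp,
      by rw [d_pull']
         exact c1.2.pull h.emb.continuous.continuousOn (fun _ _ => mem_univ _)⟩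
  obtain ⟨b, hb⟩ := hs.gen _ h1
  have key : ∀ (c : R) (g : List (Fin m → ℝ) → R) (M : Set (Fin m → ℝ)), IsCompact M →
      M ⊆ range φ → SuppIn univ (m + 1) g M → LZ univ (m + 2) (d g) →
      pull φ g - c • s ∈ coboundaries R IsCompact univ m →
      g - c • t ∈ coboundaries R IsCompact univ m := by
    intro c g M hM hMφ hg hdg hgc
    refine h.coboundary (hM.union hL) (union_subset hMφ hLφ) ?_ ?_ ?_
    · intro x hx hx'
      exact (hg x hx fun h' => hx' (Or.inl h')).sub
        ((htL x hx fun h' => hx' (Or.inr h')).smul c)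
    · rw [d_sub', d_smul']
      exact hdg.sub (ht.2.smul c)
    · have : pull φ (g - c • t) = (pull φ g - c • s) - c • (pull φ t - s) := by
        funext l
        simp only [pull, Pi.sub_apply, Pi.smul_apply, smul_eq_mul]
        ring
      rw [this]
      exact sub_mem hgc (Submodule.smul_mem _ c ht'.mem_coboundaries)
  have h2 := key b s' {φ 0} isCompact_singleton (by rintro _ rfl; exact mem_range_self _) hsupp
    c1.2 hb
  obtain ⟨e, he⟩ := c2 t ht
  have h3 : b * e = 1 := by
    have h4 : (1 - b * e) • s' ∈ coboundaries R IsCompact univ m := by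
      have : (1 - b * e) • s' = (s' - b • t) + b • (t - e • s') := by
        funext l
        simp only [Pi.sub_apply, Pi.smul_apply, Pi.add_apply, smul_eq_mul]
        ring
      rw [this]
      exact add_mem h2 (Submodule.smul_mem _ b he)
    have := c3 _ h4
    linear_combination -this
  have h5 : pull φ f ∈ cocycles R IsCompact univ m :=
    ⟨h.hasSupp_pull hK hKφ hfK,
      by rw [d_pull']
         exact hf.2.pull h.emb.continuous.continuousOn (fun _ _ => mem_univ _)⟩
  obtain ⟨c, hc'⟩ := hs.gen _ h5
  have h6 := key c f K hK hKφ hfK hf.2 hc'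
  have h7 : (c * e) • s' ∈ coboundaries R IsCompact univ m := by
    have : (c * e) • s' = f - (f - c • t) - c • (t - e • s') := by
      funext l
      simp only [Pi.sub_apply, Pi.smul_apply, smul_eq_mul]
      ring
    rw [this]
    exact sub_mem (sub_mem hc h6) (Submodule.smul_mem _ c he)
  have h8 : c = 0 := by
    have := c3 _ h7
    calc c = c * (b * e) := by rw [h3, mul_one]
      _ = b * (c * e) := by ring
      _ = 0 := by rw [this, mul_zero]
  rw [h8, zero_smul, sub_zero] at hc'
  exact hc'

/-- **The local class of a space which is embedded in `ℝ^m` as an open set is not zero.** -/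
theorem Gen.local_ne [MetricSpace X] (hs : Gen m s) {i : X → (Fin m → ℝ)}
    (hi : IsOpenEmbedding i) {j : (Fin m → ℝ) → X} (hj : IsOpenEmbedding j)
    {f : List X → R} (hf : f ∈ cocycles R IsCompact univ m) {K : Set X}
    (hK : IsCompact K) (hKj : K ⊆ range j) (hfK : SuppIn univ (m + 1) f K)
    (hc : f ∈ coboundaries R IsCompact univ m) :
    pull j f ∈ coboundaries R IsCompact univ m := by
  have : Nonempty X := ⟨j 0⟩
  have hI := exists_OE hi
  have hJ := exists_OE hj
  have hIJ := exists_OE (hi.comp hj)
  obtain ⟨g, hg, ⟨L, hL, hLi, hgL⟩, hg'⟩ := hI.exists_push_cocycle hf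
  -- the support of `g` lies in `i '' K`
  have hgK : SuppIn univ (m + 1) g (i '' K) := by
    intro y _ hy
    by_cases hyi : y ∈ range i
    · obtain ⟨x, rfl⟩ := hyi
      rw [← hI.LZat_iff]
      have h1 := hfK x (mem_univ _) fun h' => hy (mem_image_of_mem _ h')
      have h2 := (hg' x (mem_univ _)).add h1
      rwa [sub_add_cancel] at h2
    · exact hgL y (mem_univ _) fun h' => hyi (hLi h')
  have hgc : g ∈ coboundaries R IsCompact univ m := by
    refine hI.coboundary hL hLi hgL hg.2 ?_
    have : pull i g = (pull i g - f) + f := by abel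
    rw [this]
    exact add_mem hg'.mem_coboundaries hc
  have h3 := hs.injective hIJ hg (hK.image hi.continuous) (by
    rintro _ ⟨x, hx, rfl⟩
    obtain ⟨z, rfl⟩ := hKj hx
    exact ⟨z, rfl⟩) hgK hgc
  have h4 : pull j f = pull (i ∘ j) g - pull j (pull i g - f) := by
    funext l
    simp [pull, List.map_map]
  rw [h4]
  exact sub_mem h3 (hg'.pull hj.continuous.continuousOn (fun _ _ => mem_univ _)).mem_coboundaries

end

end Pool.Agent.Helper39.DS
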