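import Pool.Agent.Helper39.DS.Basic

/-!
# Extension by zero along open embeddings, and open embeddings of `ℝ^m` in itself
-/

namespace Pool.Agent.Helper39.DS

open Set Filter Topology Pool.Agent.Helper36.AS

variable {X Y R : Type*} [CommRing R]

section
variable [MetricSpace X] [MetricSpace Y]

/-- Data of an open embedding with a left inverse. -/
structure OE (φ : X → Y) (ψ : Y → X) : Prop where
  emb : IsOpenEmbedding φ
  inv : ∀ x, ψ (φ x) = x

theorem OE.cont_symm {φ : X → Y} {ψ : Y → X} (h : OE φ ψ) : ContinuousOn ψ (range φ) := by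
  rw [continuousOn_iff_continuous_domRestrict, h.emb.isInducing.continuous_iff]
  refine continuous_subtype_val.congr fun y => ?_
  obtain ⟨y, x, rfl⟩ := y
  change φ x = φ (ψ (φ x))
  rw [h.inv]

theorem OE.leftInv {φ : X → Y} {ψ : Y → X} (h : OE φ ψ) : LeftInvOn φ ψ (range φ) := by
  rintro _ ⟨x, rfl⟩
  rw [h.inv]

theorem exists_OE [Nonempty X] {φ : X → Y} (h : IsOpenEmbedding φ) :
    OE φ (Function.invFun φ) := ⟨h, Function.leftInverse_invFun h.injective⟩

theorem OE.smap_inv {φ : X → Y} {ψ : Y → X} (h : OE φ ψ) :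
    SMap IsCompact IsCompact (range φ) univ ψ :=
  smap_of_inv h.cont_symm h.emb.continuous.continuousOn (fun _ _ => mem_univ _)
    (fun x _ => mem_range_self x) h.leftInv (fun x _ => h.inv x)

theorem OE.smap {φ : X → Y} {ψ : Y → X} (h : OE φ ψ) :
    SMap IsCompact IsCompact univ (range φ) φ :=
  smap_of_inv h.emb.continuous.continuousOn h.cont_symm
    (fun x _ => mem_range_self x) (fun _ _ => mem_univ _) (fun x _ => h.inv x) h.leftInv

theorem map_map_of {φ : X → Y} {ψ : Y → X} {l : List Y} (h : ∀ y ∈ l, φ (ψ y) = y) :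
    (l.map ψ).map φ = l := by
  rw [List.map_map]
  conv_rhs => rw [← List.map_id l]
  exact List.map_congr_left fun y hy => h y hy

/-- Local vanishing at a point of the range can be tested upstairs. -/
theorem OE.LZat_iff {φ : X → Y} {ψ : Y → X} (h : OE φ ψ) {m : ℕ} {f : List Y → R} (x : X) :
    LZat univ m (pull φ f) x ↔ LZat univ m f (φ x) := by
  constructor
  · rintro ⟨U, hU, hf⟩
    refine ⟨φ '' U, h.emb.image_mem_nhds.2 hU, fun l hl hl' => ?_⟩
    have h2 : ∀ y ∈ l, φ (ψ y) = y := by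
      intro y hy
      obtain ⟨u, _, rfl⟩ := (hl' y hy).1
      rw [h.inv]
    have h3 := hf (l.map ψ) (by simpa using hl) (by
      intro z hz
      obtain ⟨y, hy, rfl⟩ := List.mem_map.1 hz
      obtain ⟨u, hu, rfl⟩ := (hl' y hy).1
      rw [h.inv]
      exact ⟨hu, mem_univ _⟩)
    rwa [pull, map_map_of h2] at h3
  · intro hf
    exact hf.pull h.emb.continuous.continuousAt.continuousWithinAt (fun _ _ => mem_univ _)

/-- Extension by zero of a cochain with compact support along an open embedding. -/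
theorem OE.exists_push {φ : X → Y} {ψ : Y → X} (h : OE φ ψ) {m : ℕ} {a : List X → R}
    (ha : HasSupp IsCompact univ (m + 1) a) :
    ∃ b : List Y → R, (∃ K, IsCompact K ∧ K ⊆ range φ ∧ SuppIn univ (m + 1) b K) ∧
      LZ univ (m + 1) (pull φ b - a) := by
  have hF : IsClosed (range φ)ᶜ := h.emb.isOpen_range.isClosed_compl
  have e1 : (univ : Set Y) \ (range φ)ᶜ = range φ := by
    rw [← compl_eq_univ_sdiff, compl_compl]
  have h1 : HasSupp IsCompact ((univ : Set Y) \ (range φ)ᶜ) (m + 1) (pull ψ a) := by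
    rw [e1]; exact h.smap_inv.hasSupp_pull ha
  obtain ⟨V, h2, h3, -⟩ := exists_cut hF h1
  refine ⟨cut V (pull ψ a), ?_, fun x _ => ?_⟩
  · obtain ⟨K, -, hK, hs⟩ := h2
    exact ⟨K, hK.1, fun y hy => by_contra fun hn => Set.disjoint_left.1 hK.2 hy hn, hs⟩
  · have h4 := (h.LZat_iff x).2 (h3 (φ x) (by rw [e1]; exact mem_range_self x))
    refine h4.congr fun l _ _ => ?_
    simp only [pull_sub, Pi.sub_apply]
    congr 1
    simp [pull, List.map_map, Function.comp_def, h.inv]

/-- The support of a cochain with compact support in the range, restricted. -/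
theorem OE.hasSupp_pull {φ : X → Y} {ψ : Y → X} (h : OE φ ψ) {m : ℕ} {f : List Y → R}
    {K : Set Y} (hK : IsCompact K) (hKφ : K ⊆ range φ) (hf : SuppIn univ m f K) :
    HasSupp IsCompact univ m (pull φ f) := by
  have h1 : HasSupp IsCompact (range φ) m f :=
    ⟨K, hKφ, hK, fun x _ hx' => (hf x (mem_univ _) hx').mono (subset_univ _)⟩
  exact h.smap.hasSupp_pull h1

/-- Extension by zero is well defined: it maps coboundaries to coboundaries. -/
theorem OE.coboundary {φ : X → Y} {ψ : Y → X} (h : OE φ ψ) {n : ℕ} {f : List Y → R} {K : Set Y}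
    (hK : IsCompact K) (hKφ : K ⊆ range φ) (hf : SuppIn univ (n + 1) f K)
    (hd : LZ univ (n + 2) (d f)) (hc : pull φ f ∈ coboundaries R IsCompact univ n) :
    f ∈ coboundaries R IsCompact univ n := by
  have hF : IsClosed (range φ)ᶜ := h.emb.isOpen_range.isClosed_compl
  have e1 : (univ : Set Y) \ (range φ)ᶜ = range φ := by
    rw [← compl_eq_univ_sdiff, compl_compl]
  have h0 : f ∈ cocycles R (Off IsCompact (range φ)ᶜ) univ n := by
    refine ⟨⟨K, subset_univ _, ⟨hK, ?_⟩, hf⟩, hd⟩
    rw [Set.disjoint_left]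
    exact fun y hy hn => hn (hKφ hy)
  have h1 : f ∈ coboundaries R IsCompact (range φ) n := by
    have h2 := h.smap_inv.pull_mem_coboundaries hc
    obtain ⟨g, hg0, hg, hfg⟩ := h2
    refine ⟨g, hg0, hg, hfg.congr fun l _ hl => ?_⟩
    simp only [Pi.sub_apply]
    congr 1
    simp only [pull]
    rw [map_map_of fun y hy => h.leftInv (hl y hy)]
  have h3 : exc R hF n (cls f h0) = 0 := by
    have : exc R hF n (cls f h0) = cls f ⟨h0.1.compact_sdiff, h0.2.mono sdiff_subset⟩ := exc_cls h0
    rw [this, cls_eq_zero_iff, e1]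
    exact h1
  have h4 : cls f h0 = 0 := by
    have := congrArg (exc R hF n).symm h3
    rwa [LinearEquiv.symm_apply_apply, map_zero] at this
  have h5 := congrArg ((SMap.ofOff IsCompact (range φ)ᶜ (univ : Set Y)).map R n) h4
  rw [ofOff_cls, map_zero, cls_eq_zero_iff] at h5
  exact h5

/-- Pushing a cocycle forward. -/
theorem OE.exists_push_cocycle {φ : X → Y} {ψ : Y → X} (h : OE φ ψ) {n : ℕ} {a : List X → R}
    (ha : a ∈ cocycles R IsCompact univ n) :
    ∃ b : List Y → R, b ∈ cocycles R IsCompact univ n ∧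
      (∃ K, IsCompact K ∧ K ⊆ range φ ∧ SuppIn univ (n + 1) b K) ∧
      LZ univ (n + 1) (pull φ b - a) := by
  obtain ⟨b, ⟨K, hK, hKφ, hs⟩, hb⟩ := h.exists_push ha.1
  refine ⟨b, ⟨⟨K, subset_univ _, hK, hs⟩, fun y _ => ?_⟩, ⟨K, hK, hKφ, hs⟩, hb⟩
  by_cases hy : y ∈ range φ
  · obtain ⟨x, rfl⟩ := hy
    rw [← h.LZat_iff]
    have h1 : pull φ (d b) = d (pull φ b - a) + d a := by
      rw [d_sub', ← d_pull']; abel
    rw [h1]
    exact (hb.d x (mem_univ _)).add (ha.2 x (mem_univ _))
  · exact (hs y (mem_univ _) fun h' => hy (hKφ h')).d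

end

end Pool.Agent.Helper39.DS
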